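import Pool.Agent.Lib.MP_1a91b9_ntV.A.Ell7
import Pool.Agent.Lib.MP_1a91b9_ntV.L.Def7
import Pool.Agent.Lib.MP_1a91b9_nuX.QW.PerA
import Pool.Agent.Lib.MP_1a91b9_nuT.CT.Pd1
import Pool.Agent.Lib.MP_1a91b9_nuT.Nrm
import Pool.Agent.Lib.MP_1a91b9_ntT.S9.Defs

/-!
# Phase 6, form T for `ℚ(√-7)`: the period of `y² = x (x + D) (x + D ab⁴)`

At the infinite place the period is `√7 ‖O7‖² / ‖D‖`. The discriminant of the field is `-7`.
-/

set_option autoImplicit false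
set_option linter.unusedSectionVars false

namespace Pool.Agent.Lib.MP_1a91b9_ntV.T

open NumberField WeierstrassCurve Pool.Agent.Lib.MP_1a91b9_nuT
  Pool.Agent.Lib.MP_1a91b9_ntV
open Pool.Agent.Lib.MP_1a91b9_ntQ (em em_add em_mul em_pow em_sub em_neg em_zero em_one em_ne em_prod
  em_ofNat em_intCast em_natCast em_inj)
open Pool.Agent.Lib.MP_1a91b9_ntT.S9 (normFactor period)
open Pool.Agent.Lib.MP_1a91b9_ntT.Per (perAt)
open Pool.Agent.Lib.MP_1a91b9_ntV.L (WE)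

noncomputable section

variable [CD]

/-! ### The infinite place -/

theorem places7 : IsTotallyComplex K ∧ ∀ v w : InfinitePlace K, v = w := by
  have hfin := InfinitePlace.card_add_two_mul_card_eq_rank K
  have h2 : Module.finrank ℚ K = 2 := finrank_K
  have hc : InfinitePlace.IsComplex (InfinitePlace.mk (embK : K →ₐ[ℚ] ℂ).toRingHom) := by
    rw [InfinitePlace.isComplex_mk_iff]
    intro hr
    have h3 := congrArg (fun f : K →+* ℂ => f (ta : K)) hr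
    have h4 : (starRingEnd ℂ) zt = zt := h3
    exact zt_ne (Complex.conj_eq_iff_im.1 h4)
  have h3 : 1 ≤ InfinitePlace.nrComplexPlaces K := by
    unfold InfinitePlace.nrComplexPlaces
    classical
    exact Fintype.card_pos_iff.2 ⟨⟨_, hc⟩⟩
  rw [h2] at hfin
  have hre : InfinitePlace.nrRealPlaces K = 0 := by omega
  have hco : InfinitePlace.nrComplexPlaces K = 1 := by omega
  have hcard : Fintype.card (InfinitePlace K) = 1 := by
    rw [InfinitePlace.card_eq_nrRealPlaces_add_nrComplexPlaces, hre, hco]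
  obtain ⟨w0, hw0⟩ := Fintype.card_eq_one_iff.mp hcard
  exact ⟨NumberField.nrRealPlaces_eq_zero_iff.mp hre, fun v w => (hw0 v).trans (hw0 w).symm⟩

theorem not_real7 (v : InfinitePlace K) : ¬ v.IsReal := by
  rw [InfinitePlace.not_isReal_iff_isComplex]
  exact places7.1.isComplex v

theorem card_places7 : Fintype.card (InfinitePlace K) = 1 :=
  Fintype.card_eq_one_iff.2 ⟨InfinitePlace.mk (embK : K →ₐ[ℚ] ℂ).toRingHom, fun v => places7.2 _ _⟩

theorem norm_emb7 (v : InfinitePlace K) (x : K) : ‖v.embedding x‖ = ‖embK x‖ := by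
  have h4 : v = InfinitePlace.mk (embK : K →ₐ[ℚ] ℂ).toRingHom := places7.2 _ _
  have h5 : ‖v.embedding x‖ = v x := by
    rw [← InfinitePlace.apply, InfinitePlace.mk_embedding]
  rw [h5, h4]
  rfl

variable [hv : V7]

theorem sd7 : sd = √7 := by
  have h : sd = Real.sqrt ((4 * CD.nm - CD.tr ^ 2 : ℤ) : ℝ) := rfl
  rw [h, hv.nm, hv.tr]
  norm_num

theorem taK_sq : ((ta : 𝓞 K) : K) ^ 2 = ((ta : 𝓞 K) : K) - 2 := by
  have h := congrArg (fun x : 𝓞 K => (x : K)) ta_sq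
  have e : (algebraMap (𝓞 K) K) 2 = 2 := map_ofNat _ 2
  simp only [map_pow, map_sub, e] at h
  exact h

theorem tbK : ((tb : 𝓞 K) : K) = 1 - ((ta : 𝓞 K) : K) := by
  have h : (algebraMap (𝓞 K) K) (1 - ta) = 1 - ((ta : 𝓞 K) : K) := by
    rw [map_sub, map_one]
  exact h

theorem norm_sgV : ‖sg‖ ^ 2 = √7 := by
  rw [← norm_pow, sg_sq]
  have h : ‖s7‖ ^ 2 = 7 := by
    rw [← norm_pow, s7_sq, norm_neg]
    norm_num
  rw [← h, Real.sqrt_sq (norm_nonneg _)]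

/-- the period of the short equation -/
theorem perAt7_cv {d : K} (hd : d ≠ 0) (v : InfinitePlace K) :
    Pool.Agent.Lib.MP_1a91b9_nuT.Per.perAt
      (Per.cv (5 * d ^ 2) (-(2 * (2 * ((ta : 𝓞 K) : K) - 1)) * d ^ 3)) v =
      √7 * ‖O7‖ ^ 2 / ‖embK d‖ := by
  obtain ⟨σ, hσ⟩ : ∃ σ, σ = v.embedding (2 * ((ta : 𝓞 K) : K) - 1) := ⟨_, rfl⟩
  have hσ2 : σ ^ 2 = -7 := by
    rw [hσ, ← map_pow]
    have e : (2 * ((ta : 𝓞 K) : K) - 1) ^ 2 = -7 := by
      linear_combination 4 * taK_sq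
    rw [e, map_neg, map_ofNat]
  have hnσ : ‖σ‖ = √7 := by
    have h : ‖σ‖ ^ 2 = 7 := by
      rw [← norm_pow, hσ2, norm_neg]
      norm_num
    rw [← h, Real.sqrt_sq (norm_nonneg _)]
  have hu := cu_ne
  have hcu : cu = (hv.u : ℂ) := rfl
  obtain ⟨t, ht⟩ := IsAlgClosed.exists_pow_nat_eq (-(v.embedding d * σ) / (7 * cu ^ 2)) (n := 2)
    (by norm_num)
  have hv0 : v.embedding d ≠ 0 := (map_ne_zero v.embedding).2 hd
  have hσ0 : σ ≠ 0 := by
    intro h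
    rw [h] at hσ2
    norm_num at hσ2
  have ht0 : t ≠ 0 := by
    rintro rfl
    rw [zero_pow (by norm_num)] at ht
    have h1 : -(v.embedding d * σ) / (7 * cu ^ 2) ≠ 0 :=
      div_ne_zero (neg_ne_zero.2 (mul_ne_zero hv0 hσ0))
        (mul_ne_zero (by norm_num) (pow_ne_zero 2 hu))
    exact h1 ht.symm
  have h1 := Pool.Agent.Lib.MP_1a91b9_nuX.QW.perAt_complex (N := K) (a := 5 * d ^ 2)
    (b := -(2 * (2 * ((ta : 𝓞 K) : K) - 1)) * d ^ 3) (v := v) (t := t) (not_real7 v) ht0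
    (by
      rw [hv.A]
      have e : t ^ 4 = (t ^ 2) ^ 2 := by ring
      rw [e, ht, map_mul, map_ofNat, map_pow]
      push_cast
      rw [← hcu]
      field_simp
      linear_combination (35 : ℂ) * hσ2)
    (by
      rw [hv.B]
      have e : t ^ 6 = (t ^ 2) ^ 3 := by ring
      rw [e, ht, map_mul, map_neg, map_mul, ← hσ, map_ofNat, map_pow]
      push_cast
      rw [← hcu]
      field_simp
      linear_combination (-(98 : ℂ)) * hσ2)
  have h4 : ‖t‖ ^ 2 = ‖embK d‖ * √7 / (7 * ‖cu‖ ^ 2) := by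
    rw [← norm_emb7 v, ← norm_pow, ht, norm_div, norm_neg, norm_mul, norm_mul, norm_pow, hnσ]
    norm_num
  have h5 : ‖O7‖ ^ 2 = ‖Om‖ ^ 2 * ‖cu‖ ^ 2 * √7 := by
    rw [O7, norm_mul, norm_mul, mul_pow, mul_pow, norm_sgV]
  have h6 : ‖embK d‖ ≠ 0 := by
    rw [← norm_emb7 v]
    exact norm_ne_zero_iff.2 hv0
  have h7 : √(7 : ℝ) ≠ 0 := by positivity
  have h8 : √(7 : ℝ) * √7 = 7 := Real.mul_self_sqrt (by norm_num)
  have h9 : ‖cu‖ ≠ 0 := norm_ne_zero_iff.2 hu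
  rw [h1, sd7, h4, h5]
  field_simp
  linear_combination (-(‖Om‖ ^ 2)) * h8

/-- the period of `y² = x (x + d) (x + d ab⁴)` -/
theorem perAt7 {d : K} (hd : d ≠ 0) (v : InfinitePlace K) :
    perAt (⟨0, d * (1 + ((tb : 𝓞 K) : K) ^ 4), 0, d ^ 2 * ((tb : 𝓞 K) : K) ^ 4, 0⟩ :
      WeierstrassCurve K) v = √7 * ‖O7‖ ^ 2 / ‖embK d‖ := by
  have h2 : perAt (⟨0, d * (1 + ((tb : 𝓞 K) : K) ^ 4), 0, d ^ 2 * ((tb : 𝓞 K) : K) ^ 4, 0⟩ :
      WeierstrassCurve K) v = Pool.Agent.Lib.MP_1a91b9_nuT.Per.perAt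
        (⟨0, d * (1 + ((tb : 𝓞 K) : K) ^ 4), 0, d ^ 2 * ((tb : 𝓞 K) : K) ^ 4, 0⟩ :
          WeierstrassCurve K) v := rfl
  have h4 : ((tb : 𝓞 K) : K) ^ 4 = 3 * ((ta : 𝓞 K) : K) - 1 := by
    rw [tbK]
    linear_combination ((1 - ((ta : 𝓞 K) : K)) ^ 2 + (1 - ((ta : 𝓞 K) : K)) - 1) * taK_sq
  have hC : (⟨1, -(d * ((ta : 𝓞 K) : K)), 0, 0⟩ : VariableChange K) •
      (⟨0, d * (1 + ((tb : 𝓞 K) : K) ^ 4), 0, d ^ 2 * ((tb : 𝓞 K) : K) ^ 4, 0⟩ :
        WeierstrassCurve K) =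
      Per.cv (5 * d ^ 2) (-(2 * (2 * ((ta : 𝓞 K) : K) - 1)) * d ^ 3) := by
    rw [h4]
    have h5 := taK_sq
    ext
    · simp [variableChange_a₁, Per.cv]
    · simp [variableChange_a₂, Per.cv]
      ring
    · simp [variableChange_a₃, Per.cv]
    · simp [variableChange_a₄, Per.cv]
      linear_combination (-3 * d ^ 2) * h5
    · simp [variableChange_a₆, Per.cv]
      linear_combination (2 * d ^ 3 * ((ta : 𝓞 K) : K) - d ^ 3) * h5
  have h3 : Fintype.card (InfinitePlace K) = 1 := card_places7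
  have hp := Pool.Agent.Lib.MP_1a91b9_nuT.CT.prod_vc
    (⟨0, d * (1 + ((tb : 𝓞 K) : K) ^ 4), 0, d ^ 2 * ((tb : 𝓞 K) : K) ^ 4, 0⟩ :
      WeierstrassCurve K) ⟨1, -(d * ((ta : 𝓞 K) : K)), 0, 0⟩
  have hu : Subsingleton (InfinitePlace K) := Fintype.card_le_one_iff_subsingleton.1 h3.le
  have hone : ∀ f : InfinitePlace K → ℝ, ∏ w : InfinitePlace K, f w = f v := fun f => by
    rw [Fintype.prod_eq_single v fun w hw => absurd (Subsingleton.elim w v) hw]
  rw [hone, hone, hC] at hp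
  rw [h2, ← perAt7_cv hd v, hp]
  simp

/-- **The product of the periods at the infinite places.** -/
theorem prod_perAt7 {D : 𝓞 K} (hD : D ≠ 0) :
    ∏ v : InfinitePlace K, perAt (WE D) v = √7 * ‖O7‖ ^ 2 / ‖em D‖ := by
  have hdK : ((D : 𝓞 K) : K) ≠ 0 := fun h => hD (RingOfIntegers.ext h)
  have h : ∀ v : InfinitePlace K, perAt (WE D) v = √7 * ‖O7‖ ^ 2 / ‖em D‖ :=
    fun v => perAt7 hdK v
  simp only [h]
  rw [Finset.prod_const, Finset.card_univ, card_places7, pow_one]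

/-! ### The discriminant of the field -/

theorem bas_repr_c (x : 𝓞 K) : bas.repr x 0 = c0 x ∧ bas.repr x 1 = c1 x := by
  have h := bas_repr (c0 x) (c1 x)
  rw [← coo x] at h
  rw [h]
  simp

theorem trace7 (x : 𝓞 K) : Algebra.trace ℤ (𝓞 K) x = 2 * c0 x + c1 x := by
  rw [Algebra.trace_eq_matrix_trace bas, Matrix.trace_fin_two]
  simp only [Algebra.leftMulMatrix_eq_repr_mul, bas_zero, bas_one]
  rw [(bas_repr_c (x * 1)).1, (bas_repr_c (x * ta)).2, mul_one, (coo_mul x ta).2, coo_ta.1,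
    coo_ta.2]
  ring

theorem discr7 : discr K = -7 := by
  rw [← discr_eq_discr K bas, Algebra.discr_def, Matrix.det_fin_two]
  simp only [Algebra.traceMatrix_apply, Algebra.traceForm_apply, bas_zero, bas_one, trace7,
    mul_one, one_mul]
  rw [c0_one, c1_one, coo_ta.1, coo_ta.2, (coo_mul ta ta).1, (coo_mul ta ta).2, coo_ta.1,
    coo_ta.2]
  norm_num

theorem sqrt_discr7 : √|(discr K : ℝ)| = √7 := by
  rw [discr7]
  have : |((-7 : ℤ) : ℝ)| = 7 := by norm_num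
  rw [this]

/-- **The period**, with the product of the scaling factors. -/
theorem period7 {D : 𝓞 K} (hD : D ≠ 0) : period (WE D) =
    (∏ᶠ v : IsDedekindDomain.HeightOneSpectrum (𝓞 K), normFactor (WE D) v) *
      (√7 * ‖O7‖ ^ 2 / ‖em D‖) := by
  rw [period, prod_perAt7 hD]

end

end Pool.Agent.Lib.MP_1a91b9_ntV.T
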